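import Mathlib
import Pool.Agent.Lib.Pc2475b.Main
import Pool.Agent.Lib.Pc2475b.Dirichlet

/-!
# Small values of integer polynomials of exact degree

For every `n ≥ 1` and every transcendental real `ζ` one has `w_{=n}(ζ) ≥ ŵ_n(ζ) ≥ n`.

The naive height of an integer polynomial (maximum of the absolute values of its coefficients) is
Mathlib's `Polynomial.supNorm`.
-/

open Polynomial

namespace Pool.Agent.Results.MP_c2475b_nt.ExactDegree

/-- The system `(*)` with the bound `Y` in place of the letter `X` of the problem: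
`H(P) ≤ Y` and `0 < |P(ζ)| ≤ Y ^ (-w)`. -/
def Sol (ζ w Y : ℝ) (P : ℤ[X]) : Prop :=
  P.supNorm ≤ Y ∧ 0 < |aeval ζ P| ∧ |aeval ζ P| ≤ Y ^ (-w)

/-- `ŵ_n(ζ)`: the supremum of all real `w` for which, for every sufficiently large `Y`, the
system `(*)` has a solution of degree at most `n`. -/
noncomputable def wHat (n : ℕ) (ζ : ℝ) : EReal :=
  sSup {w : EReal | ∃ r : ℝ, w = r ∧
    ∃ Y₀ : ℝ, ∀ Y : ℝ, Y₀ ≤ Y → ∃ P : ℤ[X], P.natDegree ≤ n ∧ Sol ζ r Y P}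

/-- `w_{=n}(ζ)`: the supremum of all real `w` for which, for arbitrarily large `Y`, the
system `(*)` has an irreducible solution of degree exactly `n`. -/
noncomputable def wExact (n : ℕ) (ζ : ℝ) : EReal :=
  sSup {w : EReal | ∃ r : ℝ, w = r ∧
    ∀ Y₀ : ℝ, ∃ Y : ℝ, Y₀ ≤ Y ∧ 1 ≤ Y ∧
      ∃ P : ℤ[X], P.natDegree = n ∧ Irreducible P ∧ Sol ζ r Y P}

theorem dirichlet_mem (n : ℕ) (ζ : ℝ) (hζ : Transcendental ℤ ζ) {r : ℝ} (hr : r < n) :
    ∃ Y₀ : ℝ, ∀ Y : ℝ, Y₀ ≤ Y → ∃ P : ℤ[X], P.natDegree ≤ n ∧ Sol ζ r Y P := by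
  obtain ⟨K, hK, hD⟩ := Pool.Agent.Lib.Pc2475b.dirichlet n ζ
  have hlim : Filter.Tendsto (fun y : ℝ => y ^ ((n : ℝ) - r)) Filter.atTop Filter.atTop :=
    tendsto_rpow_atTop (by linarith)
  obtain ⟨X₀, hX₀⟩ := Filter.eventually_atTop.1
    ((hlim.eventually_ge_atTop K).and (Filter.eventually_ge_atTop (1 : ℝ)))
  refine ⟨X₀, fun Y hY => ?_⟩
  obtain ⟨h1, h2⟩ := hX₀ Y hY
  obtain ⟨P, hP0, hPn, hPs, hPv⟩ := hD Y h2
  have hY0 : 0 < Y := by linarith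
  refine ⟨P, hPn, hPs, ?_, hPv.trans ?_⟩
  · rw [abs_pos]
    intro h
    exact hP0 (transcendental_iff.1 hζ P h)
  · calc K * Y ^ (-(n : ℝ)) ≤ Y ^ ((n : ℝ) - r) * Y ^ (-(n : ℝ)) := by gcongr
      _ = Y ^ (-r) := by
          rw [← Real.rpow_add hY0]; congr 1; ring

theorem exact_mem (n : ℕ) (hn : 1 ≤ n) (ζ : ℝ) (hζ : Transcendental ℤ ζ) {r r' : ℝ}
    (hr' : 0 < r') (hrr : r' < r)
    (h : ∃ Y₀ : ℝ, ∀ Y : ℝ, Y₀ ≤ Y → ∃ P : ℤ[X], P.natDegree ≤ n ∧ Sol ζ r Y P) :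
    ((r' : ℝ) : EReal) ≤ wExact n ζ := by
  apply le_sSup
  refine ⟨r', rfl, fun X₀ => ?_⟩
  obtain ⟨Y, hY1, hY2, P, hPn, hPi, hPs⟩ :=
    Pool.Agent.Lib.Pc2475b.exact_degree n hn ζ hζ r r' hr' hrr h X₀
  exact ⟨Y, hY1, hY2, P, hPn, hPi, hPs⟩

/-- **Main theorem.** For every `n ≥ 1` and every transcendental real number `ζ`,
`n ≤ ŵ_n(ζ) ≤ w_{=n}(ζ)`. -/
theorem result (n : ℕ) (hn : 1 ≤ n) (ζ : ℝ) (hζ : Transcendental ℚ ζ) :
    (n : EReal) ≤ wHat n ζ ∧ wHat n ζ ≤ wExact n ζ := by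
  have hζ' : Transcendental ℤ ζ := by
    intro h
    exact hζ ((IsFractionRing.isAlgebraic_iff ℤ ℚ ℝ).1 h)
  have hnR : (1 : ℝ) ≤ n := by exact_mod_cast hn
  constructor
  · apply le_of_forall_lt
    intro c hc
    obtain ⟨r, hr1, hr2⟩ := EReal.lt_iff_exists_real_btwn.1 hc
    have hrn : r < n := by exact_mod_cast hr2
    exact lt_of_lt_of_le hr1 (le_sSup ⟨r, rfl, dirichlet_mem n ζ hζ' hrn⟩)
  · apply sSup_le
    rintro _ ⟨r, rfl, hr⟩
    by_cases hr0 : 0 < r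
    · apply le_of_forall_lt
      intro c hc
      have hmax : max c 0 < (r : EReal) := max_lt hc (by exact_mod_cast hr0)
      obtain ⟨r', hr1, hr2⟩ := EReal.lt_iff_exists_real_btwn.1 hmax
      have hr'0 : 0 < r' := by
        have := lt_of_le_of_lt (le_max_right c 0) hr1
        exact_mod_cast this
      have hr'r : r' < r := by exact_mod_cast hr2
      exact lt_of_lt_of_le (lt_of_le_of_lt (le_max_left c 0) hr1)
        (exact_mem n hn ζ hζ' hr'0 hr'r hr)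
    · have h1 : ((1 / 4 : ℝ) : EReal) ≤ wExact n ζ :=
        exact_mem n hn ζ hζ' (r := 1 / 2) (by norm_num) (by norm_num)
          (dirichlet_mem n ζ hζ' (by linarith))
      refine le_trans ?_ h1
      have : r ≤ 1 / 4 := by linarith
      exact_mod_cast this

end Pool.Agent.Results.MP_c2475b_nt.ExactDegree
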